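import Mathlib
import Pool.Agent.H664.CascadeH
import Pool.Agent.H664.TrapLower
import Pool.Agent.H664.TrapUpper

open Set MeasureTheory

namespace Pool.Agent.Results.MP_6357da_an.Full

noncomputable section

/-- A `C^m` Lebesgue-measure-preserving cascade of the plane, given by its generator `g = g^1`:
a bijection of the plane which is a `C^m` diffeomorphism and preserves the Lebesgue measure. -/
def IsCascade (m : ℕ) (g : Equiv.Perm (ℝ × ℝ)) : Prop :=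
  ContDiff ℝ m g ∧ ContDiff ℝ m g.symm ∧ MeasurePreserving g volume volume

/-- Trapped points of a cascade: the forward orbit `{g^n x : n ≥ 0}` is bounded and the backward
orbit `{g^n x : n ≤ 0}` is unbounded. -/
def trappedCascade (g : Equiv.Perm (ℝ × ℝ)) : Set (ℝ × ℝ) :=
  {x | Bornology.IsBounded {y | ∃ n : ℤ, 0 ≤ n ∧ y = (g ^ n) x} ∧
    ¬ Bornology.IsBounded {y | ∃ n : ℤ, n ≤ 0 ∧ y = (g ^ n) x}}

/-- `d_casc(m)`: the supremum of the Hausdorff dimensions of the trapped sets of `C^m` cascades. -/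
def dCasc (m : ℕ) : ENNReal :=
  ⨆ (g : Equiv.Perm (ℝ × ℝ)) (_ : IsCascade m g), dimH (trappedCascade g)

/-- A `C^m` Lebesgue-measure-preserving flow of the plane: `g^0 = id`, `g^{t+s} = g^t ∘ g^s`, the
map `(t, x) ↦ g^t x` is jointly of class `C^m`, and every `g^t` preserves the Lebesgue measure. -/
structure IsFlow (m : ℕ) (g : ℝ → ℝ × ℝ → ℝ × ℝ) : Prop where
  zero : ∀ x, g 0 x = x
  add : ∀ t s x, g (t + s) x = g t (g s x)
  contDiff : ContDiff ℝ m (fun q : ℝ × (ℝ × ℝ) => g q.1 q.2)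
  measurePreserving : ∀ t, MeasurePreserving (g t) volume volume

/-- Trapped points of a flow: the forward orbit `{g^t x : t ≥ 0}` is bounded and the backward
orbit `{g^t x : t ≤ 0}` is unbounded. -/
def trappedFlow (g : ℝ → ℝ × ℝ → ℝ × ℝ) : Set (ℝ × ℝ) :=
  {x | Bornology.IsBounded {y | ∃ t : ℝ, 0 ≤ t ∧ y = g t x} ∧
    ¬ Bornology.IsBounded {y | ∃ t : ℝ, t ≤ 0 ∧ y = g t x}}

/-- `d_flow(m)`: the supremum of the Hausdorff dimensions of the trapped sets of `C^m` flows. -/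
def dFlow (m : ℕ) : ENNReal :=
  ⨆ (g : ℝ → ℝ × ℝ → ℝ × ℝ) (_ : IsFlow m g), dimH (trappedFlow g)

lemma trappedFlow_eq (g : ℝ → ℝ × ℝ → ℝ × ℝ) :
    trappedFlow g = Pool.Agent.H664.TrapLower.trapped g := by
  have h1 : ∀ x, {y | ∃ t : ℝ, 0 ≤ t ∧ y = g t x} = (fun t => g t x) '' Ici 0 := by
    intro x
    ext y
    constructor
    · rintro ⟨t, ht, rfl⟩
      exact ⟨t, mem_Ici.2 ht, rfl⟩
    · rintro ⟨t, ht, rfl⟩
      exact ⟨t, mem_Ici.1 ht, rfl⟩
  have h2 : ∀ x, {y | ∃ t : ℝ, t ≤ 0 ∧ y = g t x} = (fun t => g t x) '' Iic 0 := by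
    intro x
    ext y
    constructor
    · rintro ⟨t, ht, rfl⟩
      exact ⟨t, mem_Iic.2 ht, rfl⟩
    · rintro ⟨t, ht, rfl⟩
      exact ⟨t, mem_Iic.1 ht, rfl⟩
  unfold trappedFlow Pool.Agent.H664.TrapLower.trapped
  simp only [h1, h2]

lemma dim_flow_le {m : ℕ} (hm : 1 ≤ m) {g : ℝ → ℝ × ℝ → ℝ × ℝ} (hg : IsFlow m g) :
    dimH (trappedFlow g) ≤ ENNReal.ofReal (1 + 2 / (m + 1)) := by
  rw [trappedFlow_eq]
  exact Pool.Agent.H664.TrapUpper.dim_trapped_le hm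
    ⟨hg.zero, hg.add, hg.contDiff, hg.measurePreserving⟩

lemma exists_flow {m : ℕ} (hm : 1 ≤ m) : ∃ g : ℝ → ℝ × ℝ → ℝ × ℝ, IsFlow m g ∧
    dimH (trappedFlow g) = ENNReal.ofReal (1 + 2 / (m + 1)) := by
  obtain ⟨g, hg⟩ := Pool.Agent.H664.TrapLower.exists_gF hm
  obtain ⟨h1, h2, h3⟩ := Pool.Agent.H664.TrapLower.flow_props hm hg
  have hgf : IsFlow m g := ⟨hg.zero, h2, h1, h3⟩
  refine ⟨g, hgf, le_antisymm (dim_flow_le hm hgf) ?_⟩
  rw [trappedFlow_eq]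
  exact Pool.Agent.H664.TrapLower.dim_lower hm hg

/-- For every `m ≥ 1`: `d_casc(m) = 2` and `d_flow(m) = 1 + 2/(m+1) = (m+3)/(m+1)`, and both
suprema are attained. -/
theorem result (m : ℕ) (hm : 1 ≤ m) :
    (dCasc m = 2 ∧ ∃ g, IsCascade m g ∧ dimH (trappedCascade g) = dCasc m) ∧
    (dFlow m = ENNReal.ofReal (1 + 2 / (m + 1)) ∧
      ∃ g, IsFlow m g ∧ dimH (trappedFlow g) = dFlow m) := by
  obtain ⟨hc1, gc, hgc, hgc2⟩ := Pool.Agent.H664.CascadeH.cascade_final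
  have hcasc : dCasc m = 2 := hc1 m hm
  have hflow : dFlow m = ENNReal.ofReal (1 + 2 / (m + 1)) := by
    apply le_antisymm
    · exact iSup₂_le fun g hg => dim_flow_le hm hg
    · obtain ⟨g, hg, hg2⟩ := exists_flow hm
      rw [← hg2]
      exact le_iSup₂ (f := fun (g : ℝ → ℝ × ℝ → ℝ × ℝ) (_ : IsFlow m g) => dimH (trappedFlow g))
        g hg
  refine ⟨⟨hcasc, gc, hgc m, ?_⟩, hflow, ?_⟩
  · rw [hcasc]; exact hgc2
  · obtain ⟨g, hg, hg2⟩ := exists_flow hm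
    exact ⟨g, hg, by rw [hflow]; exact hg2⟩

end

end Pool.Agent.Results.MP_6357da_an.Full
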